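import Mathlib
import Pool.Agent.Lib.MP_5939ed_al.Construction

set_option autoImplicit false

namespace Pool.Agent.Results.MP_5939ed_al.NotStableAll

/-- For every `n ≥ 2` the group `⟨a, b, c ∣ b⁻¹ a b = aⁿ, a⁻¹ c a = cⁿ⟩` is not stable in
permutations. -/
theorem result :
    ∀ n : ℕ, 2 ≤ n → ¬ (∀ ε : ℝ, 0 < ε → ∃ δ : ℝ, 0 < δ ∧
      ∀ N : ℕ, ∀ a b c : Equiv.Perm (Fin N),
        ((Finset.univ.filter (fun i => (b⁻¹ * a * b) i ≠ (a ^ n) i)).card : ℝ) / N < δ →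
        ((Finset.univ.filter (fun i => (a⁻¹ * c * a) i ≠ (c ^ n) i)).card : ℝ) / N < δ →
        ∃ a' b' c' : Equiv.Perm (Fin N),
          b'⁻¹ * a' * b' = a' ^ n ∧ a'⁻¹ * c' * a' = c' ^ n ∧
          ((Finset.univ.filter (fun i => a i ≠ a' i)).card : ℝ) / N < ε ∧
          ((Finset.univ.filter (fun i => b i ≠ b' i)).card : ℝ) / N < ε ∧
          ((Finset.univ.filter (fun i => c i ≠ c' i)).card : ℝ) / N < ε) :=
  fun n hn => Pool.Agent.Lib.MP_5939ed_al.not_stable n hn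

end Pool.Agent.Results.MP_5939ed_al.NotStableAll
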